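import Pool.Agent.H933.LL.Stm5

/-!
# Almost all couplings (project LL of helper933, task Ae)
-/

set_option autoImplicit false

open MeasureTheory Metric
open scoped Real InnerProductSpace ENNReal

namespace Pool.Agent.H539.LL

open Pool.Agent.H933.LL

section meas

variable {X : Type} [NormedAddCommGroup X] [NormedSpace ℂ X] [CompleteSpace X]

/-- the operator `z - S - κ K` -/
noncomputable def gg (S K : X →L[ℂ] X) (p : ℂ × ℂ) : X →L[ℂ] X :=
  algebraMap ℂ (X →L[ℂ] X) p.1 - (S + p.2 • K)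

theorem gg_cont (S K : X →L[ℂ] X) : Continuous (gg S K) := by
  unfold gg
  exact ((continuous_algebraMap ℂ (X →L[ℂ] X)).comp continuous_fst).sub
    (continuous_const.add (continuous_snd.smul continuous_const))

theorem gg_res (S K : X →L[ℂ] X) (z κ : ℂ) :
    resolvent (S + κ • K) z = Ring.inverse (gg S K (z, κ)) := rfl

theorem gg_set (S K : X →L[ℂ] X) (z κ : ℂ) :
    z ∈ resolventSet ℂ (S + κ • K) ↔ IsUnit (gg S K (z, κ)) := Iff.rfl

theorem gg_open (S K : X →L[ℂ] X) : IsOpen {p : ℂ × ℂ | IsUnit (gg S K p)} :=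
  Units.isOpen.preimage (gg_cont S K)

theorem meas_res (S K : X →L[ℂ] X) :
    Measurable fun p : ℂ × ℂ => ‖Ring.inverse (gg S K p)‖ := by
  classical
  obtain ⟨O, hO⟩ : ∃ O : Set (ℂ × ℂ), O = {p : ℂ × ℂ | IsUnit (gg S K p)} := ⟨_, rfl⟩
  have hOo : IsOpen O := hO ▸ gg_open S K
  have h1 : (fun p : ℂ × ℂ => ‖Ring.inverse (gg S K p)‖) =
      O.piecewise (fun p => ‖Ring.inverse (gg S K p)‖) (fun _ => 0) := by
    funext p
    by_cases hp : p ∈ O
    · rw [Set.piecewise_eq_of_mem _ _ _ hp]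
    · rw [Set.piecewise_eq_of_notMem _ _ _ hp]
      have hp' : ¬ IsUnit (gg S K p) := by
        intro h
        apply hp
        rw [hO]
        exact h
      rw [Ring.inverse_non_unit _ hp', norm_zero]
  rw [h1]
  refine ContinuousOn.measurable_piecewise ?_ continuousOn_const hOo.measurableSet
  intro p hp
  rw [hO] at hp
  obtain ⟨u, hu⟩ := hp
  have h2 := NormedRing.inverse_continuousAt u
  rw [hu] at h2
  have h3 : ContinuousAt (fun p : ℂ × ℂ => Ring.inverse (gg S K p)) p :=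
    ContinuousAt.comp (f := gg S K) h2 (gg_cont S K).continuousAt
  exact h3.norm.continuousWithinAt

end meas

/-- an elementary bound for the integrand -/
theorem rp_bound {q L : ℝ} (hq : 0 < q) (hL : 0 ≤ L) : (1 + L) ^ q ≤ 2 ^ q * (1 + L ^ q) := by
  rcases le_total L 1 with h | h
  · calc (1 + L) ^ q ≤ 2 ^ q := Real.rpow_le_rpow (by linarith) (by linarith) hq.le
      _ = 2 ^ q * 1 := (mul_one _).symm
      _ ≤ 2 ^ q * (1 + L ^ q) := by
        have : 0 ≤ L ^ q := Real.rpow_nonneg hL _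
        gcongr
        linarith
  · calc (1 + L) ^ q ≤ (2 * L) ^ q := Real.rpow_le_rpow (by linarith) (by linarith) hq.le
      _ = 2 ^ q * L ^ q := Real.mul_rpow (by norm_num) hL
      _ ≤ 2 ^ q * (1 + L ^ q) := by
        gcongr
        linarith

/-- the bound for one point `z` -/
theorem one_point (h1 : P_fix) {X : Type} [NormedAddCommGroup X] [NormedSpace ℂ X]
    [CompleteSpace X] (S K : X →L[ℂ] X) (E : Set ℂ) (hE : IsClosed E) (hEne : E.Nonempty)
    (r : ℝ) (hr : 0 < r) (C A : ℝ) (hRate : Rate S (((r + 1 : ℝ) : ℂ) • K) E C A) :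
    ∃ C₁ A₁ : ℝ, 1 ≤ C₁ ∧ 0 ≤ A₁ ∧ ∀ z : ℂ, z ∉ E →
      (∀ᵐ κ ∂(volume.restrict (ball (0 : ℂ) r)), z ∈ resolventSet ℂ (S + κ • K)) ∧
      ∃ D : ℝ, 1 ≤ D ∧ Real.log D = Real.log C₁ + A₁ * Real.posLog (infDist z E)⁻¹ ∧
        ∫⁻ κ in ball (0 : ℂ) r, ENNReal.ofReal (Real.posLog ‖resolvent (S + κ • K) z‖) ≤
          ENNReal.ofReal D := by
  have hC0 : 0 ≤ C := by
    obtain ⟨n, -, -, ρ, -, hn, -⟩ := hRate.approx 1 one_pos le_rfl
    rw [Real.one_rpow, mul_one] at hn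
    exact (Nat.cast_nonneg n).trans hn
  obtain ⟨A₀, hA₀⟩ : ∃ A₀ : ℝ, A₀ = max A 0 := ⟨_, rfl⟩
  have hA0 : 0 ≤ A₀ := hA₀ ▸ le_max_right _ _
  have hA1 : A ≤ A₀ := hA₀ ▸ le_max_left _ _
  have hlr : 0 ≤ Real.log (1 + r) := Real.log_nonneg (by linarith)
  obtain ⟨C₀, hC₀⟩ : ∃ C₀ : ℝ, C₀ = 100 * (π * r ^ 2) * (C + 1) ^ 2 *
      (1 + C + Real.log (1 + r)) := ⟨_, rfl⟩
  refine ⟨max 1 C₀, 3 * A₀, le_max_left _ _, by positivity, fun z hz => ?_⟩
  have hδ : 0 < infDist z E := (hE.notMem_iff_infDist_pos hEne).1 hz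
  obtain ⟨d, hd⟩ : ∃ d : ℝ, d = min 1 (infDist z E) := ⟨_, rfl⟩
  have hd0 : 0 < d := by
    rw [hd]
    exact lt_min one_pos hδ
  have hd1 : d ≤ 1 := hd ▸ min_le_left _ _
  have hdδ : d ≤ infDist z E := hd ▸ min_le_right _ _
  obtain ⟨n, φ, f, ρ, hρ, hn, hlρ, hφf, hres, happ⟩ := hRate.approx d hd0 hd1
  have hr1 : (0 : ℝ) < r + 1 := by linarith
  have hr1c : ((r + 1 : ℝ) : ℂ) ≠ 0 := by exact_mod_cast hr1.ne'
  have hnr1 : ‖((r + 1 : ℝ) : ℂ)‖ = r + 1 := by
    rw [Complex.norm_real, Real.norm_eq_abs, abs_of_pos hr1]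
  -- the scaled approximation
  have hsum : K - ∑ i, ((((r + 1 : ℝ) : ℂ)⁻¹ • φ i).smulRight (f i)) =
      ((r + 1 : ℝ) : ℂ)⁻¹ • (((r + 1 : ℝ) : ℂ) • K - ∑ i, (φ i).smulRight (f i)) := by
    rw [smul_sub, smul_smul, inv_mul_cancel₀ hr1c, one_smul, Finset.smul_sum]
    congr 1
    refine Finset.sum_congr rfl fun i _ => ?_
    ext x
    simp only [ContinuousLinearMap.smulRight_apply, ContinuousLinearMap.smul_apply, smul_smul,
      smul_eq_mul]
  have k1 := h1 X S K z r ρ n (fun i => ((r + 1 : ℝ) : ℂ)⁻¹ • φ i) f hr hρ (hRate.res z hz)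
    (hres z hdδ) (fun i => ⟨by
      rw [norm_smul, norm_inv, hnr1]
      calc (r + 1)⁻¹ * ‖φ i‖ ≤ 1 * ‖φ i‖ := by
            refine mul_le_mul_of_nonneg_right ?_ (norm_nonneg _)
            exact inv_le_one_of_one_le₀ (by linarith)
        _ ≤ ρ := by
            rw [one_mul]
            exact (hφf i).1, (hφf i).2⟩) (by
      rw [hsum, norm_smul, norm_inv, hnr1]
      calc (r + 1)⁻¹ * ‖((r + 1 : ℝ) : ℂ) • K - ∑ i, (φ i).smulRight (f i)‖ * ρ * (r + 1) =
            ‖((r + 1 : ℝ) : ℂ) • K - ∑ i, (φ i).smulRight (f i)‖ * ρ := by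
              field_simp
        _ ≤ 1 / 2 := happ)
  obtain ⟨k1, k2⟩ := k1
  refine ⟨k1, ?_⟩
  obtain ⟨t, ht⟩ : ∃ t : ℝ, t = d ^ (-A₀) := ⟨_, rfl⟩
  have ht1 : 1 ≤ t := by
    rw [ht]
    exact Real.one_le_rpow_of_pos_of_le_one_of_nonpos hd0 hd1 (by linarith)
  have htA : d ^ (-A) ≤ t := by
    rw [ht]
    exact Real.rpow_le_rpow_of_exponent_ge hd0 hd1 (by linarith)
  have hlt : Real.log t = A₀ * Real.posLog (infDist z E)⁻¹ := by
    rw [ht, Real.log_rpow hd0, hd]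
    have h3 : Real.posLog (infDist z E)⁻¹ = - Real.log (min 1 (infDist z E)) := by
      rcases le_total (infDist z E) 1 with h | h
      · rw [min_eq_right h, Real.posLog_eq_log (by
          rw [abs_of_pos (inv_pos.2 hδ)]
          exact (one_le_inv₀ hδ).2 h), Real.log_inv]
      · rw [min_eq_left h, Real.log_one, neg_zero]
        rw [Real.posLog_eq_zero_iff, abs_of_pos (inv_pos.2 hδ)]
        exact inv_le_one_of_one_le₀ h
    rw [h3]
    ring
  have hC1 : 0 < max 1 C₀ := lt_of_lt_of_le one_pos (le_max_left _ _)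
  refine ⟨max 1 C₀ * t ^ 3, ?_, ?_, k2.trans (ENNReal.ofReal_le_ofReal ?_)⟩
  · have h4 : 1 ≤ t ^ 3 := one_le_pow₀ ht1
    have h5 : 1 ≤ max 1 C₀ := le_max_left _ _
    nlinarith
  · rw [Real.log_mul hC1.ne' (by positivity), Real.log_pow, hlt]
    push_cast
    ring
  · have e1 : (n : ℝ) + 1 ≤ (C + 1) * t := by
      have : C * d ^ (-A) ≤ C * t := mul_le_mul_of_nonneg_left htA hC0
      nlinarith
    have e2 : 1 + Real.log ρ + Real.log (1 + r) ≤ (1 + C + Real.log (1 + r)) * t := by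
      have : C * d ^ (-A) ≤ C * t := mul_le_mul_of_nonneg_left htA hC0
      nlinarith
    have e3 : 0 ≤ Real.log ρ := Real.log_nonneg hρ
    calc 100 * (π * r ^ 2) * ((n : ℝ) + 1) ^ 2 * (1 + Real.log ρ + Real.log (1 + r))
        ≤ 100 * (π * r ^ 2) * ((C + 1) * t) ^ 2 * ((1 + C + Real.log (1 + r)) * t) := by
          gcongr
      _ = C₀ * t ^ 3 := by
          rw [hC₀]
          ring
      _ ≤ max 1 C₀ * t ^ 3 := by
          gcongr
          exact le_max_right _ _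

theorem p_ae (h1 : P_fix) (h2 : P_jen) : P_ae := by
  intro X _ _ _ S K E q hq hE hEne hE0 hint hrate
  have hq0 : 0 < q := by linarith
  have hmeas := meas_res S K
  have hEae : ∀ᵐ z : ℂ, z ∉ E := by
    rw [ae_iff]
    simpa using hE0
  -- the points of the spectrum
  have hres : ∀ᵐ z : ℂ, ∀ᵐ κ : ℂ, IsUnit (gg S K (z, κ)) := by
    filter_upwards [hEae] with z hz
    have h3 : ∀ R : ℕ, ∀ᵐ κ : ℂ, κ ∈ ball (0 : ℂ) ((R : ℝ) + 1) → IsUnit (gg S K (z, κ)) := by
      intro R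
      have hR : (0 : ℝ) < (R : ℝ) + 1 := by positivity
      obtain ⟨C, A, hRate⟩ := hrate ((R : ℝ) + 1 + 1) (by positivity)
      obtain ⟨C₁, A₁, -, -, h4⟩ := one_point h1 S K E hE hEne ((R : ℝ) + 1) hR C A hRate
      obtain ⟨h5, -⟩ := h4 z hz
      rw [ae_restrict_iff' measurableSet_ball] at h5
      exact h5
    rw [← ae_all_iff] at h3
    filter_upwards [h3] with κ hκ
    obtain ⟨R, hR⟩ := exists_nat_gt ‖κ‖
    refine hκ R ?_
    rw [mem_ball_zero_iff]
    linarith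
  have hres' : ∀ᵐ κ : ℂ, ∀ᵐ z : ℂ, IsUnit (gg S K (z, κ)) := by
    refine (Measure.ae_ae_comm (p := fun z κ => IsUnit (gg S K (z, κ))) ?_).1 hres
    exact (gg_open S K).measurableSet
  -- the integrals
  obtain ⟨F, hF⟩ : ∃ F : ℂ → ℂ → ℝ, F = fun z κ =>
      (Real.posLog (Real.posLog ‖Ring.inverse (gg S K (z, κ))‖)) ^ q := ⟨_, rfl⟩
  have hpl : Measurable Real.posLog := Real.continuous_posLog.measurable
  have hFm : Measurable (Function.uncurry F) := by
    rw [hF]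
    have h3 : Measurable fun p : ℂ × ℂ =>
        Real.posLog (Real.posLog ‖Ring.inverse (gg S K p)‖) := hpl.comp (hpl.comp hmeas)
    exact h3.pow_const q
  have hF0 : ∀ z κ, 0 ≤ F z κ := by
    intro z κ
    rw [hF]
    exact Real.rpow_nonneg Real.posLog_nonneg _
  have hFofm : Measurable (Function.uncurry fun z κ => ENNReal.ofReal (F z κ)) :=
    ENNReal.measurable_ofReal.comp hFm
  have hfin : ∀ R s : ℕ, ∀ᵐ κ : ℂ, κ ∈ ball (0 : ℂ) ((R : ℝ) + 1) →
      ∫⁻ z in ball (0 : ℂ) s, ENNReal.ofReal (F z κ) < ∞ := by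
    intro R s
    obtain ⟨r, hr⟩ : ∃ r : ℝ, r = (R : ℝ) + 1 := ⟨_, rfl⟩
    have hr0 : 0 < r := by
      rw [hr]
      positivity
    rw [← hr]
    obtain ⟨C, A, hRate⟩ := hrate (r + 1) (by positivity)
    obtain ⟨C₁, A₁, hC1, hA1, h4⟩ := one_point h1 S K E hE hEne r hr0 C A hRate
    obtain ⟨Cq, hCq, hjen⟩ := h2 q hq
    obtain ⟨m0, hm0⟩ : ∃ m0 : ℝ, m0 = (volume (ball (0 : ℂ) r)).toReal := ⟨_, rfl⟩
    have hm00 : 0 ≤ m0 := by
      rw [hm0]
      exact ENNReal.toReal_nonneg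
    obtain ⟨a, ha⟩ : ∃ a : ℝ, a = 1 + Real.log C₁ + A₁ := ⟨_, rfl⟩
    have hlC : 0 ≤ Real.log C₁ := Real.log_nonneg hC1
    obtain ⟨c, hc⟩ : ∃ c : ℝ, c = Cq * (m0 + 1) * (a ^ q * 2 ^ q) := ⟨_, rfl⟩
    have ha0 : 0 < a := by
      rw [ha]
      linarith
    have hc0 : 0 ≤ c := by
      rw [hc]
      positivity
    have hbound : ∀ z : ℂ, z ∉ E → ∫⁻ κ in ball (0 : ℂ) r, ENNReal.ofReal (F z κ) ≤
        ENNReal.ofReal (c * (1 + (Real.posLog (infDist z E)⁻¹) ^ q)) := by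
      intro z hz
      obtain ⟨-, D, hD1, hD2, hD3⟩ := h4 z hz
      have h5 := hjen (volume.restrict (ball (0 : ℂ) r)) m0 D
        (fun κ => Real.posLog ‖Ring.inverse (gg S K (z, κ))‖) (by
          rw [Measure.restrict_apply_univ, hm0, ENNReal.ofReal_toReal measure_ball_lt_top.ne])
        hm00 hD1 (hpl.comp (hmeas.comp measurable_prodMk_left)).aemeasurable
        (fun κ => Real.posLog_nonneg) hD3
      rw [hF]
      refine h5.trans (ENNReal.ofReal_le_ofReal ?_)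
      have hL : 0 ≤ Real.posLog (infDist z E)⁻¹ := Real.posLog_nonneg
      have h6 : 1 + Real.log D ≤ a * (1 + Real.posLog (infDist z E)⁻¹) := by
        rw [hD2, ha]
        nlinarith
      have h7 : 0 ≤ 1 + Real.log D := by
        have := Real.log_nonneg hD1
        linarith
      calc Cq * (m0 + 1) * (1 + Real.log D) ^ q
          ≤ Cq * (m0 + 1) * (a * (1 + Real.posLog (infDist z E)⁻¹)) ^ q := by
            gcongr
        _ = Cq * (m0 + 1) * (a ^ q * (1 + Real.posLog (infDist z E)⁻¹) ^ q) := by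
            rw [Real.mul_rpow ha0.le (by linarith)]
        _ ≤ Cq * (m0 + 1) * (a ^ q * (2 ^ q * (1 + (Real.posLog (infDist z E)⁻¹) ^ q))) := by
            gcongr
            exact rp_bound hq0 hL
        _ = c * (1 + (Real.posLog (infDist z E)⁻¹) ^ q) := by
            rw [hc]
            ring
    have hI : IntegrableOn (fun z : ℂ => c * (1 + (Real.posLog (infDist z E)⁻¹) ^ q))
        (ball (0 : ℂ) s) := by
      have h5 : IntegrableOn (fun _ : ℂ => (1 : ℝ)) (ball (0 : ℂ) s) :=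
        integrableOn_const (measure_ball_lt_top.ne)
      exact (h5.add (hint s)).const_mul c
    have h6 : ∫⁻ z in ball (0 : ℂ) s, ∫⁻ κ in ball (0 : ℂ) r, ENNReal.ofReal (F z κ) < ∞ := by
      refine lt_of_le_of_lt (lintegral_mono_ae ?_) (Integrable.lintegral_lt_top hI)
      filter_upwards [ae_restrict_of_ae hEae] with z hz
      exact hbound z hz
    have h7 : ∫⁻ κ in ball (0 : ℂ) r, ∫⁻ z in ball (0 : ℂ) s, ENNReal.ofReal (F z κ) < ∞ := by
      rw [← lintegral_lintegral_swap]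
      · exact h6
      · exact hFofm.aemeasurable
    have h8 : ∀ᵐ κ ∂(volume.restrict (ball (0 : ℂ) r)),
        ∫⁻ z in ball (0 : ℂ) s, ENNReal.ofReal (F z κ) < ∞ := by
      refine ae_lt_top ?_ h7.ne
      exact Measurable.lintegral_prod_left' (f := Function.uncurry fun z κ =>
        ENNReal.ofReal (F z κ)) hFofm
    rw [ae_restrict_iff' measurableSet_ball] at h8
    exact h8
  have hfin' : ∀ᵐ κ : ℂ, ∀ R s : ℕ, κ ∈ ball (0 : ℂ) ((R : ℝ) + 1) →
      ∫⁻ z in ball (0 : ℂ) s, ENNReal.ofReal (F z κ) < ∞ := by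
    rw [ae_all_iff]
    intro R
    rw [ae_all_iff]
    exact hfin R
  filter_upwards [hres', hfin'] with κ hκ1 hκ2
  refine ⟨?_, fun r => ?_⟩
  · rw [ae_iff] at hκ1
    exact hκ1
  · obtain ⟨R, hR⟩ := exists_nat_gt ‖κ‖
    obtain ⟨s, hs⟩ := exists_nat_gt r
    have h3 := hκ2 R s (by
      rw [mem_ball_zero_iff]
      linarith)
    have h4 : IntegrableOn (fun z => F z κ) (ball (0 : ℂ) s) := by
      refine ⟨?_, ?_⟩
      · exact (hFm.comp measurable_prodMk_right).aestronglyMeasurable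
      · rw [hasFiniteIntegral_iff_ofReal (Filter.Eventually.of_forall fun z => hF0 z κ)]
        exact h3
    have h5 : IntegrableOn (fun z => F z κ) (ball (0 : ℂ) r) :=
      h4.mono_set (ball_subset_ball hs.le)
    rw [hF] at h5
    exact h5

end Pool.Agent.H539.LL
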